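import Mathlib
import Pool.Agent.H42.Short

namespace Pool.Agent.Results.MP_e6ce3e_lc.Countable

open Cardinal

/-- No uncountable well-ordered or conversely well-ordered subset. -/
def Short (L : Type) [LinearOrder L] : Prop :=
  (∀ S : Set L, S.WellFoundedOn (· < ·) → S.Countable) ∧
    ∀ S : Set L, S.WellFoundedOn (· > ·) → S.Countable

/-- `L` has size at least `ℵ₁` and maps monotonically onto each suborder of size `ℵ₁`. -/
def AlephOneSurjective (L : Type) [LinearOrder L] : Prop :=
  ℵ₁ ≤ #L ∧ ∀ K : Set L, #K = ℵ₁ → ∃ f : L → K, Monotone f ∧ Function.Surjective f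

theorem result (L : Type) [LinearOrder L] (h1 : Short L) (h2 : AlephOneSurjective L)
    (K : Type) [LinearOrder K] [Countable K] [Nonempty K] :
    ∃ f : L → K, Monotone f ∧ Function.Surjective f := by
  have hU : ¬ (Set.univ : Set L).Countable := fun c => by
    have := le_aleph0_iff_set_countable.2 c
    rw [mk_univ] at this
    exact aleph0_lt_aleph_one.not_ge (h2.1.trans this)
  obtain ⟨g, hg⟩ := Pool.Agent.H42.Short.exists_emb h1.1 h1.2 hU
  obtain ⟨J, j1, j2⟩ := le_mk_iff_exists_subset.1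
    (show ℵ₁ ≤ #(Set.Icc (g 0) (g 1)) by
      rw [← succ_aleph0, Order.succ_le_iff, ← not_le, le_aleph0_iff_set_countable]
      exact hg)
  obtain ⟨M, m1, m2, f, f1, f2⟩ := Pool.Agent.H42.Short.collapse' g j1 K
  obtain ⟨k, k1, k2⟩ := h2.2 M (le_antisymm ((mk_le_mk_of_subset m2).trans
    ((mk_union_le _ _).trans (add_le_of_le aleph0_lt_aleph_one.le
      ((le_aleph0_iff_set_countable.2 (Set.countable_range g)).trans
        aleph0_lt_aleph_one.le) j2.le))) (j2 ▸ mk_le_mk_of_subset m1))
  exact ⟨f ∘ k, f1.comp k1, f2.comp k2⟩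

end Pool.Agent.Results.MP_e6ce3e_lc.Countable
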